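import Mathlib

/-!
A general lemma: if `I1 + I2 = m` is a proper ideal and both `R/I1` and `R/I2` have no nonzero
element killed by `m`, then no two elements of `m` form a regular sequence on `R/(I1 ∩ I2)`.
-/

namespace Pool.Agent.U247.VN

theorem no_two_regular {R : Type*} [CommRing R] {I I1 I2 m : Ideal R} (hI : I = I1 ⊓ I2)
    (hm : m ≠ ⊤) (hsum : m = I1 ⊔ I2)
    (h1 : ∀ h : R, (∀ x ∈ m, h * x ∈ I1) → h ∈ I1)
    (h2 : ∀ h : R, (∀ x ∈ m, h * x ∈ I2) → h ∈ I2)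
    {f g : R} (hf : f ∈ m) (hg : g ∈ m)
    (rf : ∀ h : R, f * h ∈ I → h ∈ I)
    (rg : ∀ a : R, (∃ b : R, g * a - f * b ∈ I) → ∃ c : R, a - f * c ∈ I) : False := by
  rw [hsum] at hf hg
  obtain ⟨f1, hf1, f2, hf2, rfl⟩ := Submodule.mem_sup.1 hf
  obtain ⟨g1, hg1, g2, hg2, rfl⟩ := Submodule.mem_sup.1 hg
  have key : ∀ a ∈ I1, ∀ b ∈ I2, a * b ∈ I := fun a ha b hb => by
    rw [hI]; exact ⟨I1.mul_mem_right b ha, I2.mul_mem_left a hb⟩
  obtain ⟨c, hc⟩ := rg f1 ⟨g1, by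
    have e : (g1 + g2) * f1 - (f1 + f2) * g1 = f1 * g2 - g1 * f2 := by ring
    rw [e]
    exact I.sub_mem (key f1 hf1 g2 hg2) (key g1 hg1 f2 hf2)⟩
  have hc1 : f1 - (f1 + f2) * c ∈ I1 := by rw [hI] at hc; exact hc.1
  have hc2 : f1 - (f1 + f2) * c ∈ I2 := by rw [hI] at hc; exact hc.2
  -- `f * c ∈ I1`
  have e1 : (f1 + f2) * c ∈ I1 := by
    have : (f1 + f2) * c = f1 - (f1 - (f1 + f2) * c) := by ring
    rw [this]; exact I1.sub_mem hf1 hc1
  have e2 : (f1 + f2) * (1 - c) ∈ I2 := by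
    have : (f1 + f2) * (1 - c) = (f1 - (f1 + f2) * c) + f2 := by ring
    rw [this]; exact I2.add_mem hc2 hf2
  have hI1 : ∀ x ∈ I, x ∈ I1 := fun x hx => by rw [hI] at hx; exact hx.1
  have hI2 : ∀ x ∈ I, x ∈ I2 := fun x hx => by rw [hI] at hx; exact hx.2
  have c1 : c ∈ I1 := by
    apply h1
    intro x hx
    rw [hsum] at hx
    obtain ⟨x1, hx1, x2, hx2, rfl⟩ := Submodule.mem_sup.1 hx
    rw [mul_add]
    refine I1.add_mem (I1.mul_mem_left c hx1) (hI1 _ (rf _ ?_))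
    rw [← mul_assoc]
    exact key _ e1 _ hx2
  have c2 : 1 - c ∈ I2 := by
    apply h2
    intro x hx
    rw [hsum] at hx
    obtain ⟨x1, hx1, x2, hx2, rfl⟩ := Submodule.mem_sup.1 hx
    rw [mul_add]
    refine I2.add_mem (hI2 _ (rf _ ?_)) (I2.mul_mem_left _ hx2)
    rw [← mul_assoc, mul_comm]
    exact key _ hx1 _ e2
  apply hm
  rw [hsum, Ideal.eq_top_iff_one]
  have : (1 : R) = c + (1 - c) := by ring
  rw [this]
  exact Submodule.add_mem_sup c1 c2

open RingTheory.Sequence in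
theorem length_le_one {R : Type*} [CommRing R] {I I1 I2 m : Ideal R} (hI : I = I1 ⊓ I2)
    (hm : m ≠ ⊤) (hsum : m = I1 ⊔ I2)
    (h1 : ∀ h : R, (∀ x ∈ m, h * x ∈ I1) → h ∈ I1)
    (h2 : ∀ h : R, (∀ x ∈ m, h * x ∈ I2) → h ∈ I2)
    (rs : List R) (hrs : ∀ r ∈ rs, r ∈ m) (hreg : IsWeaklyRegular (R ⧸ I) rs) :
    rs.length ≤ 1 := by
  match rs, hrs, hreg with
  | [], _, _ => simp
  | [_], _, _ => simp
  | f :: g :: rest, hrs, hreg =>
    exfalso
    rw [isWeaklyRegular_cons_iff, isWeaklyRegular_cons_iff] at hreg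
    obtain ⟨hf, hg, -⟩ := hreg
    refine no_two_regular hI hm hsum h1 h2 (hrs f (by simp)) (hrs g (by simp)) ?_ ?_
    · intro h hh
      have h0 : f • (Ideal.Quotient.mk I h) = f • (0 : R ⧸ I) := by
        rw [smul_zero, Algebra.smul_def, Ideal.Quotient.algebraMap_eq, ← map_mul]
        exact Ideal.Quotient.eq_zero_iff_mem.2 hh
      exact Ideal.Quotient.eq_zero_iff_mem.1 (hf h0)
    · rintro a ⟨b, hb⟩
      have h0 : g • (Submodule.Quotient.mk (Ideal.Quotient.mk I a) : QuotSMulTop f (R ⧸ I))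
          = g • (0 : QuotSMulTop f (R ⧸ I)) := by
        rw [smul_zero, ← Submodule.Quotient.mk_smul, Submodule.Quotient.mk_eq_zero]
        rw [Submodule.mem_smul_pointwise_iff_exists]
        refine ⟨Ideal.Quotient.mk I b, trivial, ?_⟩
        rw [Algebra.smul_def, Algebra.smul_def, Ideal.Quotient.algebraMap_eq, ← map_mul, ← map_mul]
        exact ((Ideal.Quotient.eq).2 hb).symm
      have h3 := hg h0
      rw [Submodule.Quotient.mk_eq_zero, Submodule.mem_smul_pointwise_iff_exists] at h3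
      obtain ⟨c, -, hc⟩ := h3
      obtain ⟨c, rfl⟩ := Ideal.Quotient.mk_surjective c
      refine ⟨c, ?_⟩
      rw [Algebra.smul_def, Ideal.Quotient.algebraMap_eq, ← map_mul] at hc
      exact (Ideal.Quotient.eq).1 hc.symm

theorem ass_of_colon {R : Type*} [CommRing R] {I p : Ideal R} (hp : p.IsPrime) {f : R}
    (h : ∀ g : R, g ∈ p ↔ g * f ∈ I) : p ∈ associatedPrimes R (R ⧸ I) := by
  refine ⟨hp, Ideal.Quotient.mk I f, ?_⟩
  have e : (⊥ : Submodule R (R ⧸ I)).colon {Ideal.Quotient.mk I f} = p := by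
    ext g
    rw [Submodule.mem_colon_singleton, Submodule.mem_bot, h g, Algebra.smul_def,
      Ideal.Quotient.algebraMap_eq, ← map_mul, Ideal.Quotient.eq_zero_iff_mem]
  rw [e, hp.radical]

open RingTheory.Sequence Pointwise in
theorem isRegular_single {R : Type*} [CommRing R] {I m : Ideal R} (hIm : I ≤ m) (hm : m ≠ ⊤)
    {θ : R} (hθ : θ ∈ m) (h : ∀ x : R, θ * x ∈ I → x ∈ I) : IsRegular (R ⧸ I) [θ] := by
  rw [isRegular_cons_iff]
  constructor
  · intro x y hxy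
    obtain ⟨x, rfl⟩ := Ideal.Quotient.mk_surjective x
    obtain ⟨y, rfl⟩ := Ideal.Quotient.mk_surjective y
    simp only [Algebra.smul_def, Ideal.Quotient.algebraMap_eq, ← map_mul] at hxy
    rw [Ideal.Quotient.eq] at hxy ⊢
    rw [← mul_sub] at hxy
    exact h _ hxy
  · have : Nontrivial (QuotSMulTop θ (R ⧸ I)) := by
      rw [Submodule.Quotient.nontrivial_iff]
      intro h
      have h1 : (1 : R ⧸ I) ∈ θ • (⊤ : Submodule R (R ⧸ I)) := by
        rw [h]; trivial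
      rw [Submodule.mem_smul_pointwise_iff_exists] at h1
      obtain ⟨c, -, hc'⟩ := h1
      obtain ⟨c, rfl⟩ := Ideal.Quotient.mk_surjective c
      rw [Algebra.smul_def, Ideal.Quotient.algebraMap_eq, ← map_mul,
        ← map_one (Ideal.Quotient.mk I), Ideal.Quotient.eq] at hc'
      apply hm
      rw [Ideal.eq_top_iff_one]
      have e : (1 : R) = θ * c - (θ * c - 1) := by ring
      rw [e]
      exact m.sub_mem (m.mul_mem_right _ hθ) (hIm hc')
    exact IsRegular.nil _ _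

end Pool.Agent.U247.VN
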