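import Mathlib
import Pool.Agent.U247.VN.Alg

namespace Pool.Agent.U247.VN

open MvPolynomial

/-- A squarefree monomial ideal: a proper ideal generated by monomials all of whose exponents are
at most one. -/
def IsSquarefreeMonomialIdeal {σ K : Type*} [Field K] (I : Ideal (MvPolynomial σ K)) : Prop :=
  I ≠ ⊤ ∧ ∃ S : Set (σ →₀ ℕ), (∀ s ∈ S, ∀ i, s i ≤ 1) ∧
    I = Ideal.span ((fun s => monomial s (1 : K)) '' S)

/-- The v-number of an ideal `I` of a polynomial ring: the least `d` such that there are a
homogeneous polynomial `f` of degree `d` and an associated prime `p` of `I` with `(I : f) = p`. -/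
noncomputable def vNumber {σ K : Type*} [Field K] (I : Ideal (MvPolynomial σ K)) : ℕ :=
  sInf {d | ∃ f : MvPolynomial σ K, f.IsHomogeneous d ∧
    ∃ p ∈ associatedPrimes (MvPolynomial σ K) (MvPolynomial σ K ⧸ I),
      ∀ g : MvPolynomial σ K, g ∈ p ↔ g * f ∈ I}

/-- The depth of `R/I`, for `R = K[x_i]`: the supremum of the lengths of the `R/I`-regular
sequences of elements of the ideal generated by the variables. -/
noncomputable def depthQuot {σ K : Type*} [Field K] (I : Ideal (MvPolynomial σ K)) : ℕ∞ :=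
  ⨆ rs : {rs : List (MvPolynomial σ K) // (∀ r ∈ rs, r ∈ Ideal.span (Set.range X)) ∧
    RingTheory.Sequence.IsRegular (MvPolynomial σ K ⧸ I) rs}, (rs.1.length : ℕ∞)

variable {σ K : Type*} [Field K]

/-- The ideal of the polynomials all of whose monomials satisfy an upward closed predicate. -/
def upIdeal (K : Type*) [Field K] (B : (σ →₀ ℕ) → Prop) (hB : ∀ a b, B a → B (a + b)) :
    Ideal (MvPolynomial σ K) where
  carrier := {f | ∀ a, coeff a f ≠ 0 → B a}
  add_mem' := by
    intro f g hf hg a ha
    by_cases h : coeff a f = 0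
    · apply hg
      intro h'
      apply ha
      rw [coeff_add, h, h', add_zero]
    · exact hf a h
  zero_mem' := by intro a ha; simp at ha
  smul_mem' := by
    classical
    intro c f hf a ha
    rw [smul_eq_mul, coeff_mul] at ha
    obtain ⟨⟨u, v⟩, huv, e⟩ := Finset.exists_ne_zero_of_sum_ne_zero ha
    have h1 : coeff v f ≠ 0 := fun h => e (by simp [h])
    have h2 : u + v = a := by simpa using huv
    rw [← h2, add_comm]
    exact hB v u (hf v h1)

theorem mem_upIdeal {B : (σ →₀ ℕ) → Prop} {hB : ∀ a b, B a → B (a + b)}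
    {f : MvPolynomial σ K} : f ∈ upIdeal K B hB ↔ ∀ a, coeff a f ≠ 0 → B a := Iff.rfl

theorem monomial_mem_upIdeal {B : (σ →₀ ℕ) → Prop} {hB : ∀ a b, B a → B (a + b)}
    {a : σ →₀ ℕ} : monomial a (1 : K) ∈ upIdeal K B hB ↔ B a := by
  classical
  rw [mem_upIdeal]
  constructor
  · intro h
    apply h
    simp
  · intro h b hb
    rw [coeff_monomial] at hb
    by_cases hab : a = b
    · exact hab ▸ h
    · simp [hab] at hb

/-- membership of `h * monomial c` -/
theorem mul_monomial_mem_upIdeal {B : (σ →₀ ℕ) → Prop} {hB : ∀ a b, B a → B (a + b)}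
    {h : MvPolynomial σ K} {c : σ →₀ ℕ} :
    h * monomial c (1 : K) ∈ upIdeal K B hB ↔ ∀ a, coeff a h ≠ 0 → B (a + c) := by
  rw [mem_upIdeal]
  constructor
  · intro H a ha
    apply H
    rw [coeff_mul_monomial]
    simpa using ha
  · intro H b hb
    rw [coeff_mul_monomial'] at hb
    split_ifs at hb with hc
    · have h1 : coeff (b - c) h ≠ 0 := by simpa using hb
      have := H _ h1
      rwa [tsub_add_cancel_of_le hc] at this
    · exact absurd rfl hb

theorem upIdeal_eq_span {B : (σ →₀ ℕ) → Prop} {hB : ∀ a b, B a → B (a + b)}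
    (hs : ∀ a, B a → ∃ s, (∀ i, s i ≤ 1) ∧ B s ∧ s ≤ a) :
    upIdeal K B hB = Ideal.span ((fun s => monomial s (1 : K)) '' {s | (∀ i, s i ≤ 1) ∧ B s}) := by
  ext f
  rw [mem_ideal_span_monomial_image, mem_upIdeal]
  constructor
  · intro h a ha
    obtain ⟨s, hs1, hs2, hs3⟩ := hs a (h a (by simpa using ha))
    exact ⟨s, ⟨hs1, hs2⟩, hs3⟩
  · intro h a ha
    obtain ⟨s, ⟨-, hs2⟩, hs3⟩ := h a (by simpa using ha)
    obtain ⟨b, rfl⟩ := le_iff_exists_add.1 hs3
    exact hB s b hs2

/-- The squarefree part of an exponent. -/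
noncomputable def sqf (a : σ →₀ ℕ) : σ →₀ ℕ := a.mapRange (fun n => min n 1) (by simp)

theorem sqf_le_one (a : σ →₀ ℕ) (i : σ) : sqf a i ≤ 1 := by simp [sqf]

theorem sqf_le (a : σ →₀ ℕ) : sqf a ≤ a := by
  intro i; simp [sqf]

theorem sqf_ne_zero {a : σ →₀ ℕ} {i : σ} : sqf a i ≠ 0 ↔ a i ≠ 0 := by
  simp [sqf]

/-! ### The prime ideals generated by variables -/

/-- The prime generated by the variables in `S`. -/
def varPrime (K : Type*) [Field K] (S : Set σ) : Ideal (MvPolynomial σ K) :=
  upIdeal K (fun a => ∃ i ∈ S, a i ≠ 0) (by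
    rintro a b ⟨i, hi, h⟩
    exact ⟨i, hi, by simp [h]⟩)

open Classical in
/-- set the variables in `S` equal to zero -/
noncomputable def kill (K : Type*) [Field K] (S : Set σ) : MvPolynomial σ K →ₐ[K] MvPolynomial σ K :=
  aeval (fun i => if i ∈ S then 0 else X i)

open Classical in
theorem kill_monomial (S : Set σ) (a : σ →₀ ℕ) (c : K) :
    kill K S (monomial a c) = if ∃ i ∈ S, a i ≠ 0 then 0 else monomial a c := by
  rw [kill, aeval_monomial]
  split_ifs with h
  · obtain ⟨i, hi, hai⟩ := h
    rw [Finsupp.prod, Finset.prod_eq_zero (i := i)]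
    · simp
    · simpa using hai
    · simp [hi, hai]
  · push Not at h
    rw [monomial_eq]
    congr 1
    apply Finsupp.prod_congr
    intro i hi
    have hi' : a i ≠ 0 := by simpa using hi
    have : i ∉ S := fun hS => hi' (h i hS)
    simp [this]

open Classical in
theorem coeff_kill (S : Set σ) (f : MvPolynomial σ K) (a : σ →₀ ℕ) :
    coeff a (kill K S f) = if ∃ i ∈ S, a i ≠ 0 then 0 else coeff a f := by
  induction f using MvPolynomial.induction_on' with
  | monomial b c =>
    rw [kill_monomial]
    by_cases hab : b = a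
    · subst hab
      split_ifs <;> simp
    · split_ifs <;> simp [coeff_monomial, hab]
  | add p q hp hq =>
    rw [map_add, coeff_add, coeff_add, hp, hq]
    split_ifs <;> simp

theorem mem_varPrime_iff {S : Set σ} {f : MvPolynomial σ K} :
    f ∈ varPrime K S ↔ kill K S f = 0 := by
  classical
  rw [varPrime, mem_upIdeal]
  constructor
  · intro h
    ext a
    rw [coeff_kill, coeff_zero]
    split_ifs with h1
    · rfl
    · by_contra h2
      exact h1 (h a h2)
  · intro h a ha
    by_contra h1
    have := coeff_kill (K := K) S f a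
    rw [if_neg h1, h, coeff_zero] at this
    exact ha this.symm

theorem varPrime_isPrime (S : Set σ) : (varPrime K S).IsPrime := by
  have : varPrime K S = RingHom.ker (kill K S) := by
    ext f
    rw [mem_varPrime_iff, RingHom.mem_ker]
  rw [this]
  exact RingHom.ker_isPrime _

end Pool.Agent.U247.VN
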