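import Mathlib
import Pool.Agent.U247.VN.Mono

namespace Pool.Agent.U247.VN

open MvPolynomial

variable {σ K : Type*} [Field K]

/-- the ideal generated by the variables in `Q` and the product of the variables in `P` -/
def side (K : Type*) [Field K] (P Q : Finset σ) : Ideal (MvPolynomial σ K) :=
  upIdeal K (fun a => (∃ j ∈ Q, a j ≠ 0) ∨ (∀ i ∈ P, a i ≠ 0)) (by
    rintro a b (⟨j, hj, h⟩ | h)
    · exact Or.inl ⟨j, hj, by simp [h]⟩
    · exact Or.inr fun i hi => by simp [h i hi])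

theorem mem_side {P Q : Finset σ} {f : MvPolynomial σ K} :
    f ∈ side K P Q ↔ ∀ a, coeff a f ≠ 0 → (∃ j ∈ Q, a j ≠ 0) ∨ (∀ i ∈ P, a i ≠ 0) := Iff.rfl

theorem mem_maxId {f : MvPolynomial σ K} :
    f ∈ Ideal.span (Set.range (X : σ → MvPolynomial σ K)) ↔
      ∀ a, coeff a f ≠ 0 → ∃ i, a i ≠ 0 := by
  rw [← Set.image_univ, mem_ideal_span_X_image]
  constructor
  · intro h a ha
    obtain ⟨i, -, hi⟩ := h a (by simpa using ha)
    exact ⟨i, hi⟩
  · intro h a ha
    obtain ⟨i, hi⟩ := h a (by simpa using ha)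
    exact ⟨i, trivial, hi⟩

theorem maxId_ne_top : Ideal.span (Set.range (X : σ → MvPolynomial σ K)) ≠ ⊤ := by
  intro h
  have h1 : (1 : MvPolynomial σ K) ∈ Ideal.span (Set.range (X : σ → MvPolynomial σ K)) := by
    rw [h]; trivial
  rw [mem_maxId] at h1
  obtain ⟨i, hi⟩ := h1 0 (by simp)
  exact hi rfl

theorem exists_other [DecidableEq σ] {P : Finset σ} (hP : 2 ≤ P.card) (i : σ) :
    ∃ i' ∈ P, i' ≠ i := by
  by_contra hcon
  push Not at hcon
  have h1 : P ⊆ {i} := fun x hx => by simpa using hcon x hx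
  have h2 := Finset.card_le_card h1
  rw [Finset.card_singleton] at h2
  omega

theorem side_colon {P Q : Finset σ} (hP : 2 ≤ P.card) (hd : Disjoint P Q) (h : MvPolynomial σ K)
    (hh : ∀ x ∈ Ideal.span (Set.range (X : σ → MvPolynomial σ K)), h * x ∈ side K P Q) :
    h ∈ side K P Q := by
  classical
  rw [mem_side]
  intro a ha
  by_cases hQ : ∃ j ∈ Q, a j ≠ 0
  · exact Or.inl hQ
  push Not at hQ
  right
  intro i hi
  obtain ⟨i', hi'P, hi'⟩ := exists_other hP i
  have h1 := hh (X i') (Ideal.subset_span ⟨i', rfl⟩)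
  have h2 := (mul_monomial_mem_upIdeal (c := Finsupp.single i' 1)).1 h1 a ha
  rcases h2 with ⟨j', hj', h3⟩ | h3
  · have hne : i' ≠ j' := fun e => Finset.disjoint_left.1 hd hi'P (e ▸ hj')
    simp [hQ j' hj', Finsupp.single_apply, hne] at h3
  · have := h3 i hi
    simpa [Finsupp.single_apply, hi'] using this

theorem X_mem_side_of_mem {P Q : Finset σ} {j : σ} (hj : j ∈ Q) :
    (X j : MvPolynomial σ K) ∈ side K P Q := by
  classical
  rw [mem_side]
  intro a ha
  rw [coeff_X] at ha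
  left
  refine ⟨j, hj, ?_⟩
  by_cases h : Finsupp.single j 1 = a
  · rw [← h]; simp
  · simp [h] at ha

theorem sup_eq {P Q : Finset σ} (hP : 2 ≤ P.card) (hQ : 2 ≤ Q.card) (hc : ∀ i, i ∈ P ∨ i ∈ Q) :
    Ideal.span (Set.range (X : σ → MvPolynomial σ K)) = side K P Q ⊔ side K Q P := by
  apply le_antisymm
  · rw [Ideal.span_le]
    rintro _ ⟨i, rfl⟩
    rcases hc i with h | h
    · exact Submodule.mem_sup_right (X_mem_side_of_mem h)
    · exact Submodule.mem_sup_left (X_mem_side_of_mem h)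
  · have key : ∀ P Q : Finset σ, 2 ≤ P.card →
        side K P Q ≤ Ideal.span (Set.range (X : σ → MvPolynomial σ K)) := by
      intro P Q hP f hf
      rw [mem_maxId]
      intro a ha
      rcases hf a ha with ⟨j, -, hj⟩ | h
      · exact ⟨j, hj⟩
      · obtain ⟨i, hi⟩ := Finset.card_pos.1 (by omega : 0 < P.card)
        exact ⟨i, h i hi⟩
    exact sup_le (key P Q hP) (key Q P hQ)

/-- the Stanley-Reisner ideal of the disjoint union of two boundaries of simplices -/
noncomputable def two (K : Type*) [Field K] (P Q : Finset σ) : Ideal (MvPolynomial σ K) :=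
  side K P Q ⊓ side K Q P

theorem two_comm (P Q : Finset σ) : two K P Q = two K Q P := inf_comm _ _

theorem mem_two {P Q : Finset σ} {f : MvPolynomial σ K} :
    f ∈ two K P Q ↔ ∀ a, coeff a f ≠ 0 →
      ((∃ j ∈ Q, a j ≠ 0) ∨ (∀ i ∈ P, a i ≠ 0)) ∧ ((∃ j ∈ P, a j ≠ 0) ∨ (∀ i ∈ Q, a i ≠ 0)) := by
  constructor
  · intro h a ha
    exact ⟨h.1 a ha, h.2 a ha⟩
  · intro h
    exact ⟨fun a ha => (h a ha).1, fun a ha => (h a ha).2⟩

theorem two_eq_up (P Q : Finset σ) : two K P Q = upIdeal K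
    (fun a => ((∃ j ∈ Q, a j ≠ 0) ∨ (∀ i ∈ P, a i ≠ 0)) ∧
      ((∃ j ∈ P, a j ≠ 0) ∨ (∀ i ∈ Q, a i ≠ 0))) (by
    have key : ∀ (P Q : Finset σ) (a b : σ →₀ ℕ), ((∃ j ∈ Q, a j ≠ 0) ∨ (∀ i ∈ P, a i ≠ 0)) →
        ((∃ j ∈ Q, (a + b) j ≠ 0) ∨ (∀ i ∈ P, (a + b) i ≠ 0)) := by
      rintro P Q a b (⟨j, hj, h⟩ | h)
      · exact Or.inl ⟨j, hj, by simp [h]⟩
      · exact Or.inr fun i hi => by simp [h i hi]
    rintro a b ⟨h1, h2⟩
    exact ⟨key P Q a b h1, key Q P a b h2⟩) := by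
  ext f
  rw [mem_two, mem_upIdeal]

theorem two_squarefree {P Q : Finset σ} (hP : 2 ≤ P.card) (hQ : 2 ≤ Q.card)
    (hc : ∀ i, i ∈ P ∨ i ∈ Q) : IsSquarefreeMonomialIdeal (two K P Q) := by
  constructor
  · intro h
    have h1 : (1 : MvPolynomial σ K) ∈ side K P Q ⊔ side K Q P :=
      Submodule.mem_sup_left (by
        have : (1 : MvPolynomial σ K) ∈ two K P Q := by rw [h]; trivial
        exact this.1)
    rw [← sup_eq hP hQ hc] at h1
    exact maxId_ne_top ((Ideal.eq_top_iff_one _).2 h1)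
  · refine ⟨{s | (∀ i, s i ≤ 1) ∧ (((∃ j ∈ Q, s j ≠ 0) ∨ (∀ i ∈ P, s i ≠ 0)) ∧
      ((∃ j ∈ P, s j ≠ 0) ∨ (∀ i ∈ Q, s i ≠ 0)))}, fun s hs => hs.1, ?_⟩
    exact (two_eq_up P Q).trans (upIdeal_eq_span (fun a ha =>
        ⟨sqf a, sqf_le_one a, by simpa only [sqf_ne_zero] using ha, sqf_le a⟩))

/-! ### the v-number -/

/-- the exponent of the product of the variables in a finite set -/
noncomputable def ind (S : Finset σ) : σ →₀ ℕ := ∑ i ∈ S, Finsupp.single i 1

open Classical in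
theorem ind_apply (S : Finset σ) (i : σ) : ind S i = if i ∈ S then 1 else 0 := by
  rw [ind, Finsupp.finsetSum_apply]
  simp [Finsupp.single_apply]

theorem ind_ne_zero {S : Finset σ} {i : σ} : ind S i ≠ 0 ↔ i ∈ S := by
  classical
  rw [ind_apply]; simp

theorem degree_ind (S : Finset σ) : (ind S).degree = S.card := by
  rw [ind, map_sum]
  simp

theorem colon_eq [DecidableEq σ] {P Q : Finset σ} (hP : 2 ≤ P.card) (hQ : 2 ≤ Q.card)
    (hd : Disjoint P Q) {i0 : σ} (hi0 : i0 ∈ P) (g : MvPolynomial σ K) :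
    g ∈ varPrime K ({i0} ∪ (Q : Set σ)) ↔ g * monomial (ind (P.erase i0)) (1 : K) ∈ two K P Q := by
  rw [two_eq_up, mul_monomial_mem_upIdeal, varPrime, mem_upIdeal]
  have hex : ∃ i' ∈ P, i' ∈ P.erase i0 := by
    obtain ⟨i', h1, h2⟩ := exists_other hP i0
    exact ⟨i', h1, Finset.mem_erase.2 ⟨h2, h1⟩⟩
  have hQ0 : ∀ j ∈ Q, ind (P.erase i0) j = 0 := by
    intro j hj
    by_contra h
    exact Finset.disjoint_left.1 hd (Finset.mem_of_mem_erase (ind_ne_zero.1 h)) hj
  refine forall_congr' fun a => imp_congr_right fun _ => ?_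
  constructor
  · rintro ⟨i, hi, hai⟩
    refine ⟨?_, ?_⟩
    · rcases hi with hi | hi
      · right
        have hi : i = i0 := hi
        subst hi
        intro k hk
        by_cases hki : k = i
        · subst hki
          simp [hai]
        · have : ind (P.erase i) k ≠ 0 := ind_ne_zero.2 (Finset.mem_erase.2 ⟨hki, hk⟩)
          simp [this]
      · left
        exact ⟨i, hi, by simp [hai]⟩
    · left
      obtain ⟨i', h1, h2⟩ := hex
      exact ⟨i', h1, by simp [ind_ne_zero.2 h2]⟩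
  · rintro ⟨h1, -⟩
    rcases h1 with ⟨j, hj, h⟩ | h
    · refine ⟨j, Or.inr hj, ?_⟩
      simpa [hQ0 j hj] using h
    · refine ⟨i0, Or.inl rfl, ?_⟩
      have h3 := h i0 hi0
      have h4 : ind (P.erase i0) i0 = 0 := by
        by_contra h5
        exact absurd (ind_ne_zero.1 h5) (by simp)
      simpa [h4] using h3

/-- One half of the lower bound for the v-number. -/
theorem lower_aux [DecidableEq σ] {P Q : Finset σ} (hP : 2 ≤ P.card) (hQ : 2 ≤ Q.card)
    (hd : Disjoint P Q) {f : MvPolynomial σ K} {e : ℕ} (hf : f.IsHomogeneous e)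
    {p : Ideal (MvPolynomial σ K)} (hp : p.IsPrime)
    (h : ∀ g : MvPolynomial σ K, g ∈ p ↔ g * f ∈ two K P Q)
    (hX : ∀ i ∈ P, (X i : MvPolynomial σ K) ∈ p) : Q.card ≤ e + 1 := by
  -- some variable of `Q` is in `p`
  have hprod : monomial (ind Q) (1 : K) ∈ p := by
    rw [h]
    apply Ideal.mul_mem_right
    rw [two_eq_up, monomial_mem_upIdeal]
    obtain ⟨j, hj⟩ := Finset.card_pos.1 (by omega : 0 < Q.card)
    exact ⟨Or.inl ⟨j, hj, ind_ne_zero.2 hj⟩, Or.inr fun i hi => ind_ne_zero.2 hi⟩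
  have hprod' : (∏ j ∈ Q, (X j : MvPolynomial σ K)) ∈ p := by
    have : (∏ j ∈ Q, (X j : MvPolynomial σ K)) = monomial (ind Q) (1 : K) := by
      rw [ind, monomial_sum_one]
      rfl
    rw [this]; exact hprod
  obtain ⟨j0, hj0, hj0p⟩ := (hp.prod_mem_iff).1 hprod'
  -- a monomial of `f` outside the ideal
  have hf0 : f ∉ two K P Q := by
    intro hf0
    apply hp.ne_top
    rw [Ideal.eq_top_iff_one, h, one_mul]
    exact hf0
  rw [mem_two] at hf0
  push Not at hf0
  obtain ⟨a, ha, hbad⟩ := hf0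
  have hdeg : a.degree = e := by
    have := hf ha
    rwa [Pi.one_def, ← Finsupp.degree_eq_weight_one] at this
  have h1 : ∀ i, (X i : MvPolynomial σ K) ∈ p →
      ((∃ j ∈ Q, (a + Finsupp.single i 1 : σ →₀ ℕ) j ≠ 0) ∨
        (∀ i' ∈ P, (a + Finsupp.single i 1 : σ →₀ ℕ) i' ≠ 0)) ∧
      ((∃ j ∈ P, (a + Finsupp.single i 1 : σ →₀ ℕ) j ≠ 0) ∨
        (∀ i' ∈ Q, (a + Finsupp.single i 1 : σ →₀ ℕ) i' ≠ 0)) := by
    intro i hi
    have h2 := (h _).1 hi
    rw [mul_comm, two_eq_up] at h2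
    exact (mul_monomial_mem_upIdeal (c := Finsupp.single i 1)).1 h2 a ha
  by_cases hy : ∃ j ∈ Q, a j ≠ 0
  · -- `a` has a variable of `Q`, hence none of `P`
    have hx := (hbad (Or.inl hy)).1
    obtain ⟨-, h3⟩ := h1 j0 hj0p
    rcases h3 with ⟨i, hi, h4⟩ | h3
    · exfalso
      have hne : j0 ≠ i := fun e => Finset.disjoint_left.1 hd hi (e ▸ hj0)
      simp [hx i hi, Finsupp.single_apply, hne] at h4
    · have hle : ind Q ≤ a + Finsupp.single j0 1 := by
        intro k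
        by_cases hk : k ∈ Q
        · have h5 := h3 k hk
          have h6 : ind Q k = 1 := by rw [ind_apply]; simp [hk]
          rw [h6]
          omega
        · have h6 : ind Q k = 0 := by rw [ind_apply]; simp [hk]
          rw [h6]
          exact Nat.zero_le _
      have h7 := Finsupp.degree_mono hle
      rw [degree_ind, map_add, hdeg, Finsupp.degree_single] at h7
      exact h7
  · -- `a` has no variable of `Q`; then it contains all variables of `P`
    exfalso
    push Not at hy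
    have hall : ∀ i ∈ P, a i ≠ 0 := by
      intro i hi
      obtain ⟨i', hi'P, hi'⟩ := exists_other hP i
      obtain ⟨h3, -⟩ := h1 i' (hX i' hi'P)
      rcases h3 with ⟨j, hj, h4⟩ | h3
      · exfalso
        have hne : i' ≠ j := fun e => Finset.disjoint_left.1 hd hi'P (e ▸ hj)
        simp [hy j hj, Finsupp.single_apply, hne] at h4
      · have := h3 i hi
        simpa [Finsupp.single_apply, hi'] using this
    obtain ⟨i, hi⟩ := Finset.card_pos.1 (by omega : 0 < P.card)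
    exact hall i hi ((hbad (Or.inr hall)).1 i hi)

theorem lower [DecidableEq σ] {P Q : Finset σ} (hP : 2 ≤ P.card) (hQ : 2 ≤ Q.card)
    (hd : Disjoint P Q) {f : MvPolynomial σ K} {e : ℕ} (hf : f.IsHomogeneous e)
    {p : Ideal (MvPolynomial σ K)} (hp : p.IsPrime)
    (h : ∀ g : MvPolynomial σ K, g ∈ p ↔ g * f ∈ two K P Q) :
    min P.card Q.card ≤ e + 1 := by
  by_cases hX : ∀ i ∈ P, (X i : MvPolynomial σ K) ∈ p
  · exact (min_le_right _ _).trans (lower_aux hP hQ hd hf hp h hX)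
  · push Not at hX
    obtain ⟨i, hi, hip⟩ := hX
    refine (min_le_left _ _).trans (lower_aux (P := Q) (Q := P) hQ hP hd.symm hf hp
      (fun g => by rw [h g, two_comm]) ?_)
    intro j hj
    have h1 : (X i * X j : MvPolynomial σ K) ∈ p := by
      rw [h]
      apply Ideal.mul_mem_right
      constructor
      · exact Ideal.mul_mem_left _ _ (X_mem_side_of_mem hj)
      · exact Ideal.mul_mem_right _ _ (X_mem_side_of_mem hi)
    exact (hp.mem_or_mem h1).resolve_left hip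

theorem vNumber_two [DecidableEq σ] {P Q : Finset σ} {d : ℕ} (hd1 : 1 ≤ d) (hP : P.card = d + 1)
    (hQ : Q.card = d + 1) (hd : Disjoint P Q) : vNumber (two K P Q) = d := by
  have hP2 : 2 ≤ P.card := by omega
  have hQ2 : 2 ≤ Q.card := by omega
  have hmem : d ∈ {d | ∃ f : MvPolynomial σ K, f.IsHomogeneous d ∧
      ∃ p ∈ associatedPrimes (MvPolynomial σ K) (MvPolynomial σ K ⧸ two K P Q),
      ∀ g : MvPolynomial σ K, g ∈ p ↔ g * f ∈ two K P Q} := by
    obtain ⟨i0, hi0⟩ := Finset.card_pos.1 (by omega : 0 < P.card)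
    refine ⟨monomial (ind (P.erase i0)) 1, ?_, varPrime K ({i0} ∪ (Q : Set σ)), ?_,
      colon_eq hP2 hQ2 hd hi0⟩
    · apply isHomogeneous_monomial
      rw [degree_ind, Finset.card_erase_of_mem hi0, hP]
      rfl
    · exact ass_of_colon (varPrime_isPrime _) (colon_eq hP2 hQ2 hd hi0)
  apply le_antisymm
  · exact Nat.sInf_le hmem
  · apply le_csInf ⟨d, hmem⟩
    rintro e ⟨f, hf, p, hp, h⟩
    have := lower hP2 hQ2 hd hf hp.isPrime h
    rw [hP, hQ, min_self] at this
    omega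

/-! ### the depth -/

theorem coeff_sum_X [Fintype σ] [DecidableEq σ] (i : σ) :
    coeff (Finsupp.single i 1) (∑ k : σ, (X k : MvPolynomial σ K)) = 1 := by
  rw [coeff_sum, Finset.sum_eq_single i]
  · simp
  · intro b _ hb
    rw [coeff_X, if_neg]
    intro h
    apply hb
    exact Finsupp.single_left_injective one_ne_zero h
  · simp

theorem sum_X_notMem [Fintype σ] [DecidableEq σ] {S : Set σ} {i : σ} (hi : i ∉ S) :
    (∑ k : σ, (X k : MvPolynomial σ K)) ∉ varPrime K S := by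
  intro h
  have h1 := h (Finsupp.single i 1) (by rw [coeff_sum_X]; exact one_ne_zero)
  obtain ⟨j, hj, h2⟩ := h1
  rw [Finsupp.single_apply] at h2
  split_ifs at h2 with h3
  · exact hi (h3 ▸ hj)
  · exact h2 rfl

theorem mem_two_iff_primes {P Q : Finset σ} {f : MvPolynomial σ K} :
    f ∈ two K P Q ↔ (∀ i ∈ P, f ∈ varPrime K ({i} ∪ (Q : Set σ))) ∧
      (∀ j ∈ Q, f ∈ varPrime K ({j} ∪ (P : Set σ))) := by
  have key : ∀ P Q : Finset σ, f ∈ side K P Q ↔ (∀ i ∈ P, f ∈ varPrime K ({i} ∪ (Q : Set σ))) ∧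
      (P = ∅ → True) := by
    intro P Q
    constructor
    · intro h
      refine ⟨fun i hi a ha => ?_, fun _ => trivial⟩
      rcases h a ha with ⟨j, hj, h1⟩ | h1
      · exact ⟨j, Or.inr hj, h1⟩
      · exact ⟨i, Or.inl rfl, h1 i hi⟩
    · rintro ⟨h, -⟩ a ha
      by_cases h1 : ∃ j ∈ Q, a j ≠ 0
      · exact Or.inl h1
      · right
        intro i hi
        obtain ⟨k, hk, h2⟩ := h i hi a ha
        rcases hk with hk | hk
        · have hk : k = i := hk
          exact hk ▸ h2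
        · exact absurd ⟨k, hk, h2⟩ h1
  constructor
  · intro h
    exact ⟨((key P Q).1 h.1).1, ((key Q P).1 h.2).1⟩
  · rintro ⟨h1, h2⟩
    exact ⟨(key P Q).2 ⟨h1, fun _ => trivial⟩, (key Q P).2 ⟨h2, fun _ => trivial⟩⟩

theorem sum_X_regular [Fintype σ] [DecidableEq σ] {P Q : Finset σ} (hP : 2 ≤ P.card)
    (hQ : 2 ≤ Q.card) (hd : Disjoint P Q) {h : MvPolynomial σ K}
    (hh : (∑ k : σ, (X k : MvPolynomial σ K)) * h ∈ two K P Q) : h ∈ two K P Q := by
  rw [mem_two_iff_primes] at hh ⊢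
  have key : ∀ P Q : Finset σ, 2 ≤ P.card → Disjoint P Q →
      (∀ i ∈ P, (∑ k : σ, (X k : MvPolynomial σ K)) * h ∈ varPrime K ({i} ∪ (Q : Set σ))) →
      (∀ i ∈ P, h ∈ varPrime K ({i} ∪ (Q : Set σ))) := by
    intro P Q hP hd h1 i hi
    refine ((varPrime_isPrime _).mem_or_mem (h1 i hi)).resolve_left ?_
    obtain ⟨i', h2, h3⟩ := exists_other hP i
    apply sum_X_notMem (i := i')
    rintro (h4 | h4)
    · exact h3 h4
    · exact Finset.disjoint_left.1 hd h2 h4
  exact ⟨key P Q hP hd hh.1, key Q P hQ hd.symm hh.2⟩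

theorem two_le_maxId {P Q : Finset σ} (hP : 2 ≤ P.card) (hQ : 2 ≤ Q.card)
    (hc : ∀ i, i ∈ P ∨ i ∈ Q) :
    two K P Q ≤ Ideal.span (Set.range (X : σ → MvPolynomial σ K)) := by
  rw [sup_eq hP hQ hc]
  exact fun x hx => Submodule.mem_sup_left hx.1

theorem depth_two [Fintype σ] [DecidableEq σ] {P Q : Finset σ} (hP : 2 ≤ P.card)
    (hQ : 2 ≤ Q.card) (hd : Disjoint P Q) (hc : ∀ i, i ∈ P ∨ i ∈ Q) :
    depthQuot (two K P Q) = 1 := by
  apply le_antisymm
  · apply iSup_le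
    rintro ⟨rs, hrs, hreg⟩
    have := length_le_one (I := two K P Q) rfl maxId_ne_top (sup_eq hP hQ hc)
      (side_colon hP hd) (side_colon hQ hd.symm) rs hrs hreg.1
    exact_mod_cast this
  · have hmem : (∑ k : σ, (X k : MvPolynomial σ K)) ∈
        Ideal.span (Set.range (X : σ → MvPolynomial σ K)) :=
      Ideal.sum_mem _ fun k _ => Ideal.subset_span ⟨k, rfl⟩
    refine le_iSup_of_le ⟨[∑ k : σ, (X k : MvPolynomial σ K)], ?_,
      isRegular_single (two_le_maxId hP hQ hc) maxId_ne_top hmem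
        (fun _ => sum_X_regular hP hQ hd)⟩ ?_
    · intro r hr
      rw [List.mem_singleton] at hr
      rw [hr]
      exact hmem
    · simp

end Pool.Agent.U247.VN
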